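import Pool.Agent.Lib.SRH.Main

namespace Pool.Agent.Results.MP_8954a7_pr.CloningGame

open Pool.Agent.Lib.SRH Filter Topology

theorem result {V : Type} [Fintype V] (k : ℕ) (_hk : 1 ≤ k) (E : Finset (Finset V))
    (_hE : ∀ g ∈ E, g.card = k + 1) (c : ℝ) (hc : 0 < c) :
    Tendsto (fun n : ℕ => optProb E k n ⌊c * √(n : ℝ)⌋₊) atTop
      (𝓝 (⨆ N : ℕ, val E ((c / N) ^ 2) N ([] : List (Rd k Ent)))) :=
  tendsto_opt E k hc

end Pool.Agent.Results.MP_8954a7_pr.CloningGame
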