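import Pool.Agent.Lib.MP_8954a7_pr.Grow

namespace Pool.Agent.Results.MP_8954a7_pr.Feedback

open Pool.Agent.Lib.SRG Filter Topology

theorem result {V : Type} [Fintype V] (G : SimpleGraph V) (hc : G.Connected) (x : V)
    (hx : (G.induce {x}ᶜ).IsAcyclic) (β : ℕ) (hβ : 2 ≤ β)
    (hE : G.edgeSet.ncard + 1 = Fintype.card V + β) (c : ℝ) (hc0 : 0 < c) :
    Tendsto (fun n : ℕ => optProb G n ⌊c * √(n : ℝ)⌋₊) atTop
      (𝓝 (1 - Real.exp (-(c ^ 2 / 2)) *
        ∑ i ∈ Finset.range β, (c ^ 2 / 2) ^ i / (i.factorial : ℝ))) := by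
  classical
  obtain ⟨k, rfl⟩ : ∃ k, β = k + 2 := ⟨β - 2, by omega⟩
  refine Metric.tendsto_nhds.2 fun ε hε => ?_
  filter_upwards [upper_excess G k (by omega) hc0 (half_pos hε),
    lower_excess hc.preconnected hx hE.le hc0 (half_pos hε)] with n h1 h2
  rw [Real.dist_eq, abs_lt]
  unfold pQ at h1 h2
  constructor <;> linarith

end Pool.Agent.Results.MP_8954a7_pr.Feedback
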