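import Pool.Agent.Lib.MP_8954a7_pr.UniB

namespace Pool.Agent.Results.MP_8954a7_pr.Unicyclic

open Pool.Agent.Lib.SRG Filter Topology

theorem result {V : Type} [Fintype V] (G : SimpleGraph V) (hc : G.Connected)
    (hE : G.edgeSet.ncard = Fintype.card V) (k : ℕ) (hk : 3 ≤ k)
    (hG : (SimpleGraph.cycleGraph k).IsContained G) (c : ℝ) (hc0 : 0 < c) :
    Tendsto (fun n : ℕ => optProb G n ⌊c * √(n : ℝ)⌋₊) atTop
      (𝓝 (1 - Real.exp (-(((k : ℝ) - 1) / (2 * k - 3) * c ^ 2)))) := by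
  classical
  obtain ⟨m, rfl⟩ : ∃ m, k = m + 3 := ⟨k - 3, by omega⟩
  have h0 : (0 : ℝ) < 2 * m + 3 := by positivity
  have hρ : (2 * m + 4 : ℝ) / (2 * m + 3) * (2 * m + 3) = 2 * m + 4 := div_mul_cancel₀ _ h0.ne'
  have e : (((m + 3 : ℕ) : ℝ) - 1) / (2 * (m + 3 : ℕ) - 3) * c ^ 2 =
      (2 * m + 4 : ℝ) / (2 * m + 3) * c ^ 2 / 2 := by
    push_cast
    rw [show 2 * ((m : ℝ) + 3) - 3 = 2 * m + 3 by ring]
    field_simp
    ring
  refine Metric.tendsto_nhds.2 fun ε hε => ?_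
  filter_upwards [upper_cyc hG hρ (by positivity) hc0 (half_pos hε),
    lower_cyc hc.preconnected (by rw [E2_univ, hE]) hG hρ hc0 (half_pos hε)] with n h1 h2
  rw [Real.dist_eq, abs_lt, e]
  simp only [pQ, Finset.range_one, Finset.sum_singleton, pow_zero, Nat.factorial_zero,
    Nat.cast_one, div_one, mul_one] at h1 h2
  constructor <;> linarith

end Pool.Agent.Results.MP_8954a7_pr.Unicyclic
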